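import Pool.Agent.Y17.G.Defs
import Pool.Agent.Z125.N.GENb
import Pool.Agent.Z419.Gen

/-!
# The sum over all factorizations, doubly inert primes, norms `pr D1`, `3 pr D2`
-/

set_option autoImplicit false

namespace Pool.Agent.Y614.Z17G

open Finset Matrix Pool.Agent.Y17.G
open Pool.Agent.Y17.N (Sp SB)
open Pool.Agent.Z700 (pr fac od loc)
open Pool.Agent.Z419.Gen (odd_sum fac2 fac7 od_eq split14 not_dvd_sq)
open Pool.Agent.Z125.N (sp_two sp_seven)

lemma in_two {r : ℕ} (hr : In r) : jacobiSym 2 r = -1 := by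
  have h1 : Odd r := by
    rw [Nat.odd_iff]
    have := hr.2.1
    omega
  rw [jacobiSym.at_two h1, ZMod.χ₈_nat_eq_if_mod_eight]
  have h2 := hr.2.1
  rw [if_neg (by omega), if_neg (by omega)]

lemma jac_in {r : ℕ} (hr : In r) : jacobiSym (r : ℤ) 7 = -1 := by
  rw [jacobiSym.mod_left]
  rcases hr.2.2 with h | h | h
  · have : ((r : ℤ) % ((7 : ℕ) : ℤ)) = 3 := by push_cast; omega
    rw [this]
    norm_num
  · have : ((r : ℤ) % ((7 : ℕ) : ℤ)) = 5 := by push_cast; omega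
    rw [this]
    norm_num
  · have : ((r : ℤ) % ((7 : ℕ) : ℤ)) = 6 := by push_cast; omega
    rw [this]
    norm_num

lemma in_seven3 {r : ℕ} (hr : In r) (h : r % 8 = 3) : jacobiSym 7 r = 1 := by
  have h2 := jacobiSym.quadratic_reciprocity_three_mod_four (a := 7) (b := r) (by norm_num)
    (by omega)
  have h3 : ((7 : ℕ) : ℤ) = 7 := rfl
  rw [h3, jac_in hr] at h2
  rw [h2]
  norm_num

lemma in_seven5 {r : ℕ} (hr : In r) (h : r % 8 = 5) : jacobiSym 7 r = -1 := by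
  have h2 := jacobiSym.quadratic_reciprocity_one_mod_four (a := r) (b := 7) (by omega)
    (by decide)
  have h3 : ((7 : ℕ) : ℤ) = 7 := rfl
  rw [h3, jac_in hr] at h2
  exact h2.symm

lemma in_of_mod {A : Finset ℕ} (hA : ∀ p ∈ A, Sp p ∨ In p) {p : ℕ} (hp : p ∈ A) (h : ¬ p % 8 = 1) :
    In p := (hA p hp).resolve_left fun h' => h h'.2.1

lemma cond_eq {A : Finset ℕ} (hA : ∀ p ∈ A, Sp p ∨ In p) (i j y : ℕ) :
    Cond ((2 ^ i * 7 ^ j * y : ℕ) : ℤ) A ↔ Cond (y : ℤ) A := by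
  have h0 : ∀ p : ℕ, jacobiSym ((2 ^ i * 7 ^ j * y : ℕ) : ℤ) p =
      jacobiSym 2 p ^ i * jacobiSym 7 p ^ j * jacobiSym y p := by
    intro p
    push_cast
    rw [jacobiSym.mul_left, jacobiSym.mul_left, jacobiSym.pow_left, jacobiSym.pow_left]
  have h1 : ∀ p ∈ sp A, jacobiSym ((2 ^ i * 7 ^ j * y : ℕ) : ℤ) p = jacobiSym y p := by
    intro p hp
    obtain ⟨hpA, hp1⟩ := Finset.mem_filter.1 hp
    have hS : Sp p := (hA p hpA).resolve_right fun h' => by
      have := h'.2.1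
      omega
    rw [h0, sp_two hS, sp_seven hS]
    simp
  have h3 : ∀ p ∈ i3 A, jacobiSym ((2 ^ i * 7 ^ j * y : ℕ) : ℤ) p = (-1) ^ i * jacobiSym y p := by
    intro p hp
    obtain ⟨hpA, hp1⟩ := Finset.mem_filter.1 hp
    have hI : In p := in_of_mod hA hpA (by omega)
    rw [h0, in_two hI, in_seven3 hI hp1]
    simp
  have h5 : ∀ p ∈ i5 A, jacobiSym ((2 ^ i * 7 ^ j * y : ℕ) : ℤ) p =
      ((-1) ^ i * (-1) ^ j) * jacobiSym y p := by
    intro p hp
    obtain ⟨hpA, hp1⟩ := Finset.mem_filter.1 hp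
    have hI : In p := in_of_mod hA hpA (by omega)
    rw [h0, in_two hI, in_seven5 hI hp1]
  unfold Cond cnd
  refine and_congr ?_ (and_congr ?_ ?_)
  · exact forall₂_congr fun p hp => by beta_reduce; rw [h1 p hp]
  · refine forall₂_congr fun r hr => forall₂_congr fun r' hr' => ?_
    beta_reduce
    rw [h3 r hr, h3 r' hr', mul_right_inj' (pow_ne_zero _ (by norm_num))]
  · refine forall₂_congr fun r hr => forall₂_congr fun r' hr' => ?_
    beta_reduce
    rw [h5 r hr, h5 r' hr', mul_right_inj' (mul_ne_zero (pow_ne_zero _ (by norm_num))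
      (pow_ne_zero _ (by norm_num)))]

/-- squares up to fourteen -/
lemma sq14 {A : Finset ℕ} (hA : ∀ p ∈ A, Sp p ∨ In p) {D : ℕ} (hD : 0 < D) :
    (∃ y : ℕ, D = 14 * y ^ 2 ∧ Cond y A) ↔
      (Odd (D.factorization 2) ∧ Odd (D.factorization 7) ∧
        ∃ y : ℕ, od D = y ^ 2 ∧ Cond y A) := by
  constructor
  · rintro ⟨y, hy, hj⟩
    have hy0 : y ≠ 0 := by rintro rfl; simp at hy; omega
    obtain ⟨i, j, z, h2, h7, rfl⟩ := split14 hy0
    have e : D = 2 ^ (2 * i + 1) * 7 ^ (2 * j + 1) * z ^ 2 := by rw [hy]; ring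
    rw [e, fac2 (not_dvd_sq Nat.prime_two h2), fac7 (not_dvd_sq (by norm_num) h7),
      od_eq (not_dvd_sq Nat.prime_two h2) (not_dvd_sq (by norm_num) h7)]
    exact ⟨⟨i, rfl⟩, ⟨j, rfl⟩, z, rfl, (cond_eq hA i j z).1 hj⟩
  · rintro ⟨⟨i, hi⟩, ⟨j, hj⟩, y, hy, hjac⟩
    obtain ⟨a, c, z, h2, h7, hDe⟩ := split14 hD.ne'
    rw [hDe, fac2 h2] at hi
    rw [hDe, fac7 h7] at hj
    rw [hDe, od_eq h2 h7] at hy
    refine ⟨2 ^ i * 7 ^ j * y, ?_, (cond_eq hA i j y).2 hjac⟩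
    rw [hDe, hi, hj, hy]
    ring

lemma mod_of {A : Finset ℕ} (hA : ∀ p ∈ A, Sp p ∨ In p) :
    ∀ p ∈ A, p % 8 = 1 ∨ p % 8 = 3 ∨ p % 8 = 5 := by
  intro p hp
  rcases hA p hp with h | h
  · exact Or.inl h.2.1
  · exact Or.inr h.2.1

lemma pr_z8 {A : Finset ℕ} (hA : ∀ p ∈ A, p % 8 = 1 ∨ p % 8 = 3 ∨ p % 8 = 5) :
    ((pr A : ℕ) : ZMod 8) = 3 ^ (i3 A).card * 5 ^ (i5 A).card := by
  classical
  unfold pr
  induction A using Finset.induction_on with
  | empty => simp [i3, i5]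
  | insert a s ha ih =>
    have ih' := ih (fun p hp => hA p (Finset.mem_insert_of_mem hp))
    rw [Finset.prod_insert ha, Nat.cast_mul, ih']
    unfold i3 i5
    rw [Finset.filter_insert, Finset.filter_insert]
    have cast : (a : ZMod 8) = ((a % 8 : ℕ) : ZMod 8) := (ZMod.natCast_mod a 8).symm
    rcases hA a (Finset.mem_insert_self _ _) with h | h | h
    · rw [if_neg (by omega), if_neg (by omega), cast, h, Nat.cast_one, one_mul]
    · rw [if_pos h, if_neg (by omega), cast, h, Finset.card_insert_of_notMem (by simp [ha]),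
        pow_succ]
      push_cast
      ring
    · rw [if_neg (by omega), if_pos h, cast, h, Finset.card_insert_of_notMem (by simp [ha]),
        pow_succ]
      push_cast
      ring

lemma pr_mod8 {A : Finset ℕ} (hA : ∀ p ∈ A, Sp p ∨ In p) (hT : Ty 1 A) : pr A % 8 = 3 := by
  have h1 := pr_z8 (mod_of hA)
  obtain ⟨h3, h5⟩ := hT
  obtain ⟨a, ha⟩ : ∃ a, (i3 A).card = 2 * a + 1 := ⟨(i3 A).card / 2, by omega⟩
  obtain ⟨b, hb⟩ : ∃ b, (i5 A).card = 2 * b := ⟨(i5 A).card / 2, by omega⟩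
  have e9 : (3 : ZMod 8) ^ 2 = 1 := by decide
  have e25 : (5 : ZMod 8) ^ 2 = 1 := by decide
  rw [ha, hb, pow_succ, pow_mul, pow_mul, e9, e25, one_pow, one_pow, one_mul, mul_one] at h1
  have h2 : ((pr A : ℕ) : ZMod 8) = ((3 : ℕ) : ZMod 8) := by rw [h1]; rfl
  exact (ZMod.natCast_eq_natCast_iff' _ _ 8).1 h2

lemma mem_FixT {A : Finset ℕ} {b : ℤ} : b ∈ FixT A ↔
    b ∈ Ioo (-(3 * (pr A : ℤ))) (3 * (pr A : ℤ)) ∧
    ((b : ZMod 7) = -(2 * bt A) ∧
    ∃ y ∈ range (3 * pr A), 3 * (pr A : ℤ) = b ^ 2 + 14 * (y : ℤ) ^ 2 ∧ Cond y A) := by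
  unfold FixT
  simp only [Finset.mem_filter]

/-- the discriminant -/
def Db (A : Finset ℕ) (b : ℤ) : ℕ := (3 * (pr A : ℤ) - b ^ 2).toNat

/-- the inner products -/
noncomputable def II (A : Finset ℕ) (ε : ℤ) : Finset ℤ :=
  (Ioo (-(3 * (pr A : ℤ))) (3 * (pr A : ℤ))).filter fun b : ℤ =>
    (4 : ℤ) ∣ b - ε ∧ (b : ZMod 7) = -(2 * bt A) ∧ b ^ 2 < 3 * (pr A : ℤ)

lemma SB_eq (A : Finset ℕ) {D1 : Finset ℕ} (h : D1 ∈ adm 1 A) (ε : ℤ) :
    SB (pr D1) (3 * pr (A \ D1)) (-(2 * bt A)) ε = ∑ b ∈ II A ε, loc (pr D1) (Db A b) := by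
  have h : D1 ⊆ A := Finset.mem_powerset.1 (Finset.mem_filter.1 h).1
  have e1 : pr D1 * pr (A \ D1) = pr A := by
    unfold pr
    rw [mul_comm]
    exact Finset.prod_sdiff h
  have e3 : (((pr D1 : ℕ) : ℤ) * ((3 * pr (A \ D1) : ℕ) : ℤ)) = 3 * (pr A : ℤ) := by
    rw [← e1]
    push_cast
    ring
  unfold SB II Db
  rw [e3]

lemma three_not_dvd {A : Finset ℕ} (hA : Cl A) : ¬ 3 ∣ pr A := by
  intro h
  unfold pr at h
  obtain ⟨p, hp, h3⟩ := (Nat.prime_three.prime.dvd_finsetProd_iff _).1 h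
  have hpp : p.Prime := by
    rcases hA.1 p hp with h | h
    · exact h.1
    · exact h.1
  have := (Nat.prime_dvd_prime_iff_eq Nat.prime_three hpp).1 h3
  exact hA.2 (this ▸ hp)

/-- the contribution of one inner product -/
lemma one_b (h : S_GENbQG) {A : Finset ℕ} (hA : Cl A) (hT : Ty 1 A)
    {ε : ℤ} (hε : ε = 1 ∨ ε = -1) {b : ℤ} (hb : b ∈ II A ε) :
    ∃ n : ℤ, ∑ D1 ∈ adm 1 A, loc (pr D1) (Db A b) = 2 ^ ex A * n ∧
      (Odd n ↔ b ∈ FixT A) := by
  obtain ⟨hb0, hb4, hb7, hbD⟩ := Finset.mem_filter.1 hb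
  have hodd : Odd b := by
    rw [Int.odd_iff]
    rcases hε with rfl | rfl <;> omega
  have hDz : ((Db A b : ℕ) : ℤ) = 3 * (pr A : ℤ) - b ^ 2 := by
    rw [Db, Int.toNat_of_nonneg (by linarith)]
  have hDpos : 0 < Db A b := by
    have : (0 : ℤ) < (Db A b : ℕ) := by
      rw [hDz]
      linarith
    exact_mod_cast this
  have hfix : b ∈ FixT A ↔ ∃ y : ℕ, Db A b = 14 * y ^ 2 ∧ Cond y A := by
    rw [mem_FixT]
    constructor
    · rintro ⟨_, _, y, _, hy, hj⟩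
      refine ⟨y, ?_, hj⟩
      have : ((Db A b : ℕ) : ℤ) = ((14 * y ^ 2 : ℕ) : ℤ) := by
        rw [hDz, hy]
        push_cast
        ring
      exact_mod_cast this
    · rintro ⟨y, hy, hj⟩
      have h1 : ((14 * y ^ 2 : ℕ) : ℤ) = 3 * (pr A : ℤ) - b ^ 2 := by rw [← hy, hDz]
      refine ⟨hb0, hb7, y, ?_, ?_, hj⟩
      · rw [Finset.mem_range]
        have h2 : 14 * y ^ 2 ≤ 3 * pr A := by
          have : ((14 * y ^ 2 : ℕ) : ℤ) ≤ ((3 * pr A : ℕ) : ℤ) := by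
            rw [h1]
            push_cast
            nlinarith
          exact_mod_cast this
        have h4 : 0 < 3 * pr A := by
          have : (0 : ℤ) < 3 * (pr A : ℤ) := lt_of_le_of_lt (sq_nonneg b) hbD
          exact_mod_cast this
        nlinarith
      · push_cast at h1
        linarith
  rw [hfix, sq14 hA.1 hDpos]
  by_cases h2 : Odd ((Db A b).factorization 2)
  · obtain ⟨n, hn, hn2⟩ := h A hA hT b hodd (Db A b) hDpos hDz h2
    refine ⟨((Db A b).factorization 7 : ℤ) * n, ?_, ?_⟩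
    · have e1 : ∀ D1 ∈ adm 1 A, loc (pr D1) (Db A b) =
            ((Db A b).factorization 7 : ℤ) *
              ∏ l ∈ ((Db A b).primeFactors.erase 2).erase 7, fac (pr D1) (Db A b) l := by
          intro D1 _
          unfold loc
          rw [if_pos h2]
      rw [Finset.sum_congr rfl e1, ← Finset.mul_sum, hn]
      ring
    · have e2 : Odd (((Db A b).factorization 7 : ℕ) : ℤ) ↔ Odd ((Db A b).factorization 7) :=
        Int.odd_coe_nat _
      rw [Int.odd_mul, e2]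
      constructor
      · rintro ⟨h7, hn3⟩
        exact ⟨h2, h7, (hn2 h7).mp hn3⟩
      · rintro ⟨_, h7, h8⟩
        exact ⟨h7, (hn2 h7).mpr h8⟩
  · refine ⟨0, ?_, ?_⟩
    · have e1 : ∀ D1 ∈ adm 1 A, loc (pr D1) (Db A b) = 0 := by
        intro D1 _
        unfold loc
        rw [if_neg h2]
      rw [Finset.sum_congr rfl e1]
      simp
    · constructor
      · intro h0
        simp at h0
      · rintro ⟨h3, _⟩
        exact absurd h3 h2

lemma sum_II (h : S_GENbQG) {A : Finset ℕ} (hA : Cl A) (hT : Ty 1 A)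
    {ε : ℤ} (hε : ε = 1 ∨ ε = -1) :
    ∃ N : ℤ, ∑ D1 ∈ adm 1 A, SB (pr D1) (3 * pr (A \ D1)) (-(2 * bt A)) ε =
      2 ^ ex A * N ∧ (Odd N ↔ Odd ((FixT A).filter fun b => (4 : ℤ) ∣ b - ε).card) := by
  classical
  rw [Finset.sum_congr rfl fun D1 hD1 => SB_eq A hD1 ε, Finset.sum_comm]
  have key : ∀ b ∈ II A ε, ∃ n : ℤ, ∑ D1 ∈ adm 1 A, loc (pr D1) (Db A b) =
      2 ^ ex A * n ∧ (Odd n ↔ b ∈ FixT A) := fun b hb => one_b h hA hT hε hb
  choose! nb hnb1 hnb2 using key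
  refine ⟨∑ b ∈ II A ε, nb b, ?_, ?_⟩
  · rw [Finset.sum_congr rfl hnb1, Finset.mul_sum]
  · rw [odd_sum (II A ε) nb (fun b => b ∈ FixT A) hnb2]
    have e1 : (II A ε).filter (fun b => b ∈ FixT A) =
        (FixT A).filter fun b => (4 : ℤ) ∣ b - ε := by
      ext b
      rw [Finset.mem_filter, Finset.mem_filter]
      constructor
      · rintro ⟨h1, h2⟩
        exact ⟨h2, (Finset.mem_filter.1 h1).2.1⟩
      · rintro ⟨hb, h4⟩
        refine ⟨?_, hb⟩
        obtain ⟨hb0, hb7, y, _, hy, _⟩ := mem_FixT.1 hb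
        refine Finset.mem_filter.2 ⟨hb0, h4, hb7, ?_⟩
        have hy0 : (y : ℤ) ≠ 0 := by
          intro h0
          rw [h0] at hy
          have hqb : (3 : ℤ) ∣ b ^ 2 := ⟨(pr A : ℤ), by linarith⟩
          obtain ⟨c, rfl⟩ := Int.prime_three.dvd_of_dvd_pow hqb
          have h5 : (pr A : ℤ) = 3 * c ^ 2 := by linarith
          have h6 : (3 : ℤ) ∣ (pr A : ℤ) := ⟨c ^ 2, h5⟩
          exact three_not_dvd hA (by exact_mod_cast h6)
        have : 0 < 14 * (y : ℤ) ^ 2 := by positivity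
        linarith
    rw [e1]

/-- GENQG -/
theorem t_GENQG (h : S_GENbQG) : S_GENQG := by
  classical
  intro A hA hT
  obtain ⟨N1, h1, h1'⟩ := sum_II h hA hT (ε := -1) (Or.inr rfl)
  obtain ⟨N2, h2, h2'⟩ := sum_II h hA hT (ε := 1) (Or.inl rfl)
  refine ⟨N1 - N2, ?_, ?_⟩
  · rw [Finset.sum_sub_distrib, h1, h2]
    ring
  · have hodd : ∀ b ∈ FixT A, b % 2 = 1 := by
      intro b hb
      obtain ⟨_, _, y, _, hy, _⟩ := mem_FixT.1 hb
      have hm := pr_mod8 hA.1 hT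
      have h5 : (b ^ 2) % 2 = 1 := by omega
      rcases Int.emod_two_eq_zero_or_one b with h6 | h6
      · exfalso
        have : b ^ 2 % 2 = 0 := by rw [pow_two, Int.mul_emod, h6]; rfl
        omega
      · exact h6
    have hsplit : (FixT A).card = ((FixT A).filter fun b => (4 : ℤ) ∣ b - (-1)).card +
        ((FixT A).filter fun b => (4 : ℤ) ∣ b - 1).card := by
      rw [← Finset.card_filter_add_card_filter_not (s := FixT A) (fun b => (4 : ℤ) ∣ b - (-1))]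
      congr 2
      apply Finset.filter_congr
      intro b hb
      have := hodd b hb
      omega
    rw [hsplit, Nat.odd_add, Int.odd_sub, h1', ← Int.not_odd_iff_even, ← Nat.not_odd_iff_even, h2']

end Pool.Agent.Y614.Z17G
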